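import Pool.Agent.Lib.MP_aa636d_nt.WinE

namespace Pool.Agent.Results.MP_aa636d_nt.LongerWindow
open Finset Filter Pool.Agent.Lib.MP_aa636d_nt Pool.Agent.Lib.MP_aa636d_nt.Win

theorem result : ∃ δ : ℝ, 0 < δ ∧ ∃ n₀ : ℕ, ∀ n : ℕ, n₀ < n →
    ∀ S T : Finset ℕ, S.Nonempty → T.Nonempty →
      (∀ a ∈ S, n < a ∧ (a : ℝ) < (n : ℝ) + δ * Real.log n ^ 2 *
        Real.log (Real.log (Real.log n)) /
          (Real.log (Real.log n) * Real.log (Real.log (Real.log (Real.log n))))) →
      (∀ a ∈ T, n < a ∧ (a : ℝ) < (n : ℝ) + δ * Real.log n ^ 2 *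
        Real.log (Real.log (Real.log n)) /
          (Real.log (Real.log n) * Real.log (Real.log (Real.log (Real.log n))))) →
      ∏ a ∈ S, a = ∏ a ∈ T, a → S = T := by
  obtain ⟨c, c0, hc⟩ := Win.core
  have t0 : Tendsto (fun n : ℕ => (n : ℝ)) atTop atTop := tendsto_natCast_atTop_atTop
  have t1 := Real.tendsto_log_atTop.comp t0
  have t2 := Real.tendsto_log_atTop.comp t1
  have t4 := Real.tendsto_log_atTop.comp (Real.tendsto_log_atTop.comp t2)
  obtain ⟨n₀, hn₀⟩ := eventually_atTop.1 ((t0.eventually (ev 2 two_pos 2)).and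
    ((t1.eventually ((ev 16 (by norm_num) 1).and (eventually_ge_atTop 100000))).and
    ((t2.eventually ((ev (8 * (7 * (11 + c)) ^ 3) (by positivity) 3).and
      (eventually_ge_atTop 3))).and (t4.eventually (eventually_ge_atTop 10)))))
  refine ⟨1 / 100000, by norm_num, n₀, fun n hn S T _ _ hS hT he => ?_⟩
  obtain ⟨e1, ⟨e2, e3⟩, ⟨e4, e5⟩, e6⟩ := hn₀ n hn.le
  simp only [Function.comp, pow_one] at e1 e2 e3 e4 e5 e6
  by_contra hne
  have n1 : 1 ≤ n := by omega
  generalize hL : Real.log n = L at *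
  generalize hA : Real.log L = A at *
  have B1 : 1 ≤ Real.log A := by simpa using (one_le_log le_rfl).trans (Real.log_le_log
    (by norm_num) (show ((3 : ℕ) : ℝ) ≤ A by simpa using e5))
  have BA : Real.log A ≤ A := Real.log_le_self (by linarith)
  generalize hB : Real.log A = B at *
  have EB : Real.log B ≤ B := Real.log_le_self (by linarith)
  generalize hE : Real.log B = E at *
  have L0 : 0 < L := by linarith
  have A0 : 0 < A := by linarith
  have B0 : 0 < B := by linarith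
  have E0 : 0 < E := by linarith
  obtain ⟨w, hw⟩ : ∃ w, w = 1 / 100000 * L ^ 2 * B / (A * E) := ⟨_, rfl⟩
  rw [← hw] at hS hT
  have w0 : w * (A * E) = L ^ 2 * B / 100000 := by
    rw [hw]
    field_simp
  have w1 : 2 ≤ w := by
    rw [hw, le_div_iff₀ (by positivity)]
    nlinarith [mul_le_mul_of_nonneg_left EB A0.le, mul_le_mul e3 e2 (by positivity) L0.le,
      mul_pos A0 B0]
  have w2 : 2 * w ≤ L ^ 2 := by
    rw [hw, ← mul_div_assoc, div_le_iff₀ (by positivity)]
    nlinarith [mul_le_mul_of_nonneg_left BA (sq_nonneg L), mul_pos (pow_pos L0 2) A0]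
  have K1 := Nat.le_ceil w
  have K2 : (⌈w⌉₊ : ℝ) ≤ 2 * w := by linarith [Nat.ceil_lt_add_one (show 0 ≤ w by linarith)]
  generalize ⌈w⌉₊ = K at K1 K2
  have hK : 2 ≤ K := by exact_mod_cast w1.trans K1
  have K0 : (0 : ℝ) < K := by linarith
  obtain ⟨m, s1, s2, s3⟩ := hc n K hK (by exact_mod_cast (by linarith : (2 : ℝ) * K ≤ n))
    (bad_of n1 (fun a ha => ⟨(hS a ha).1, by exact_mod_cast (by linarith [(hS a ha).2] :
      (a : ℝ) < n + K)⟩) (fun a ha => ⟨(hT a ha).1, by
        exact_mod_cast (by linarith [(hT a ha).2] : (a : ℝ) < n + K)⟩) he hne)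
  rw [hL] at s1 s2 s3
  have k1 : Real.log K ≤ 2 * A := by
    have := Real.log_le_log K0 (K2.trans w2)
    rwa [Real.log_pow, hA, Nat.cast_ofNat] at this
  have m1 := win_up e2 e3 A0 B1 e6 hE w0 K0 K2 k1 s1
  have m2 : L / (4 * A) ≤ m := by
    rw [div_le_iff₀ (by positivity)]
    nlinarith [mul_le_mul_of_nonneg_left k1 (show (0 : ℝ) ≤ m + 3 by positivity)]
  have m3 := win_low c0 hA hB L0 e5 (by linarith) e4 k1 m2 s3
  nlinarith [mul_pos L0 B0, mul_le_mul_of_nonneg_right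
    (show 3 * Real.log K + 2 ≤ L / 2 by linarith) B0.le]

end Pool.Agent.Results.MP_aa636d_nt.LongerWindow
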