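import Pool.Agent.Lib.MP_aa636d_nt.PowD

namespace Pool.Agent.Results.MP_aa636d_nt.PowerExceptions
open Finset Real Filter Pool.Agent.Lib.MP_aa636d_nt

/-- `D c n`: nonempty sets of integers strictly between `n` and `n + (log n) ^ c` have pairwise
distinct products. -/
def D (c : ℝ) (n : ℕ) : Prop :=
  ∀ S T : Finset ℕ, S.Nonempty → T.Nonempty →
    (∀ a ∈ S, n < a ∧ (a : ℝ) < (n : ℝ) + Real.log (n : ℝ) ^ c) →
    (∀ a ∈ T, n < a ∧ (a : ℝ) < (n : ℝ) + Real.log (n : ℝ) ^ c) →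
    ∏ a ∈ S, a = ∏ a ∈ T, a → S = T

theorem result (c θ : ℝ) (hc : 2 ≤ c) (hc' : c < 3) (hθ : 1 - 2 / c < θ) :
    ∃ N₀ : ℕ, ∀ N : ℕ, N₀ ≤ N →
      (Set.ncard {n : ℕ | n ≤ N ∧ ¬ D c n} : ℝ) ≤ (N : ℝ) ^ θ := by
  classical
  have c0 : 0 ≤ 1 - 2 / c := by
    rw [sub_nonneg, div_le_one (by linarith)]; exact hc
  set η := (θ + (1 - 2 / c)) / 2 with hη
  have η0 : 0 < η := by rw [hη]; linarith
  have η1 : 0 < θ - η := by rw [hη]; linarith
  obtain ⟨L₀, hL₀⟩ := eventually_atTop.1 (dyadic2 (θ := η) hc hc' (by rw [hη]; linarith))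
  obtain ⟨j₀, hj₀⟩ := exists_nat_ge (2 * max L₀ 1)
  have l2 : (1 : ℝ) / 2 < Real.log 2 := by linarith [Real.log_two_gt_d9]
  have l2' : Real.log 2 < 1 := by linarith [Real.log_two_lt_d9]
  have hev : ∀ᶠ N : ℕ in atTop, Real.log (16 * Real.log N ^ (3 : ℝ)) ≤ Real.log N ^ (1 / 2 : ℝ) ∧
      1 / (θ - η) * Real.log N ^ (1 / 2 : ℝ) ≤ Real.log N ^ (1 : ℝ) ∧
        (2 : ℝ) ^ j₀ + 1 ≤ Real.log N :=
    (Real.tendsto_log_atTop.comp tendsto_natCast_atTop_atTop).eventually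
      ((ev_log (by norm_num)).and ((ev_le _ (by norm_num)).and (eventually_ge_atTop _)))
  obtain ⟨N₀, hN₀⟩ := eventually_atTop.1 hev
  refine ⟨N₀, fun N hN => ?_⟩
  obtain ⟨e1, e2, e3⟩ := hN₀ N hN
  set Λ := Real.log N with hΛ
  have p0 : (0 : ℝ) < 2 ^ j₀ := by positivity
  have Λ1 : 1 ≤ Λ := by linarith
  have hN0 : N ≠ 0 := by
    rintro rfl
    simp at hΛ
    linarith
  set E := (range (N + 1)).filter fun n => ¬ D c n with hE
  have hset : {n : ℕ | n ≤ N ∧ ¬ D c n} = (E : Set ℕ) := by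
    ext n; simp [hE]
  rw [hset, Set.ncard_coe_finset]
  set F : ℕ → Finset ℕ := fun j => E.filter fun n => 2 ^ j₀ ≤ n ∧ Nat.log 2 n = j with hF
  have hsub : E ⊆ range (2 ^ j₀) ∪ (range (Nat.log 2 N + 1)).biUnion F := by
    intro n hn
    rw [Finset.mem_union]
    by_cases h : n < 2 ^ j₀
    · exact Or.inl (Finset.mem_range.2 h)
    · right
      have hnN : n ≤ N := Nat.lt_succ_iff.1 (Finset.mem_range.1 (Finset.mem_filter.1 hn).1)
      exact Finset.mem_biUnion.2 ⟨Nat.log 2 n, Finset.mem_range.2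
        (Nat.lt_succ_iff.2 (Nat.log_mono_right hnN)), Finset.mem_filter.2 ⟨hn, not_lt.1 h, rfl⟩⟩
  have hone : ∀ j ∈ range (Nat.log 2 N + 1), ((F j).card : ℝ) ≤ Real.exp (η * Λ) := by
    intro j hj
    rcases (F j).eq_empty_or_nonempty with h | ⟨m, hm⟩
    · rw [h]; simp only [Finset.card_empty, Nat.cast_zero]; positivity
    have hm' := (Finset.mem_filter.1 hm).2
    have hjj : j₀ ≤ j := hm'.2 ▸ Nat.le_log_of_pow_le (by norm_num) hm'.1
    have hjj' : (j₀ : ℝ) ≤ j := by exact_mod_cast hjj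
    set L := Real.log ((2 ^ j : ℕ) : ℝ) with hL
    have hLj : L = j * Real.log 2 := by rw [hL]; push_cast; rw [Real.log_pow]
    have hmax : max L₀ 1 ≤ L := by
      have : (0 : ℝ) ≤ j := Nat.cast_nonneg j
      rw [hLj]; nlinarith
    have hL1 : 1 ≤ L := (le_max_right _ _).trans hmax
    have hLΛ : L ≤ Λ := log_nat_mono ((Nat.pow_le_pow_right (by norm_num)
      (Nat.lt_succ_iff.1 (Finset.mem_range.1 hj))).trans (Nat.pow_log_le_self 2 hN0))
    refine (hL₀ L ((le_max_left _ _).trans hmax) (2 ^ j) rfl (F j) ?_).trans ?_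
    · intro n hn
      obtain ⟨h1, h2, h3⟩ := Finset.mem_filter.1 hn
      have hn0 : n ≠ 0 := by have := Nat.two_pow_pos j₀; omega
      have b1 : 2 ^ j ≤ n := h3 ▸ Nat.pow_log_le_self 2 hn0
      have b2 : n < 2 * 2 ^ j := by
        have := Nat.lt_pow_succ_log_self (b := 2) (by norm_num) n
        rw [h3, pow_succ] at this
        omega
      refine ⟨b1, b2, ?_⟩
      have hD := (Finset.mem_filter.1 h1).2
      unfold D at hD
      push Not at hD
      obtain ⟨S, T, -, -, hS, hT, he, hne⟩ := hD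
      have hlog : Real.log n ^ c ≤ ⌈(2 * L) ^ c⌉₊ := by
        refine le_trans ?_ (Nat.le_ceil _)
        apply Real.rpow_le_rpow (log_nat_nonneg n) _ (by linarith)
        have := log_nat_mono b2.le
        rw [Nat.cast_mul, Real.log_mul (by norm_num) (by positivity), ← hL] at this
        push_cast at this
        linarith
      have conv : ∀ a : ℕ, (a : ℝ) < (n : ℝ) + Real.log (n : ℝ) ^ c → a < n + ⌈(2 * L) ^ c⌉₊ := by
        intro a ha
        have : (a : ℝ) < ((n + ⌈(2 * L) ^ c⌉₊ : ℕ) : ℝ) := by push_cast; linarith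
        exact_mod_cast this
      exact bad_of (by omega) (fun a ha => ⟨(hS a ha).1, conv a (hS a ha).2⟩)
        (fun a ha => ⟨(hT a ha).1, conv a (hT a ha).2⟩) he hne
    · exact Real.exp_le_exp.2 (mul_le_mul_of_nonneg_left hLΛ η0.le)
  have hlog2 : (Nat.log 2 N : ℝ) ≤ 2 * Λ := by
    have := log_nat_mono (Nat.pow_log_le_self 2 hN0)
    push_cast at this
    rw [Real.log_pow] at this
    have h0 : (0 : ℝ) ≤ Nat.log 2 N := Nat.cast_nonneg _
    nlinarith
  have x1 : 1 ≤ Real.exp (η * Λ) := Real.one_le_exp (by positivity)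
  have x2 : 16 * Λ ^ (3 : ℝ) ≤ Real.exp ((θ - η) * Λ) := by
    rw [← Real.exp_log (by positivity : 0 < 16 * Λ ^ (3 : ℝ))]
    refine Real.exp_le_exp.2 (e1.trans ?_)
    rw [Real.rpow_one, one_div, inv_mul_le_iff₀ η1] at e2
    exact e2
  have x3 : Λ ≤ Λ ^ (3 : ℝ) := by
    calc Λ = Λ ^ (1 : ℝ) := by simp
      _ ≤ _ := Real.rpow_le_rpow_of_exponent_le Λ1 (by norm_num)
  calc (E.card : ℝ) ≤ ((range (2 ^ j₀) ∪ (range (Nat.log 2 N + 1)).biUnion F).card : ℝ) := by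
        exact_mod_cast Finset.card_le_card hsub
    _ ≤ ((range (2 ^ j₀)).card : ℝ) + ∑ j ∈ range (Nat.log 2 N + 1), ((F j).card : ℝ) := by
        exact_mod_cast (Finset.card_union_le _ _).trans
          (Nat.add_le_add_left Finset.card_biUnion_le _)
    _ ≤ 2 ^ j₀ + ∑ _j ∈ range (Nat.log 2 N + 1), Real.exp (η * Λ) := by
        gcongr with j hj
        · simp
        · exact hone j hj
    _ = 2 ^ j₀ + (Nat.log 2 N + 1) * Real.exp (η * Λ) := by simp
    _ ≤ (16 * Λ ^ (3 : ℝ)) * Real.exp (η * Λ) := by nlinarith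
    _ ≤ Real.exp ((θ - η) * Λ) * Real.exp (η * Λ) := by gcongr
    _ = _ := by
        rw [← Real.exp_add, Real.rpow_def_of_pos (by positivity), ← hΛ]
        congr 1
        ring

end Pool.Agent.Results.MP_aa636d_nt.PowerExceptions
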